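import Mathlib
import Pool.Agent.Lib.helper18.Gr2

set_option autoImplicit false

open Classical Matrix SimpleGraph

namespace Pool.Agent.Results.MP_7d4bc7_co.Code

/-- All adjacency eigenvalues except one copy of `d` have absolute value at most `2√(d-1)`. -/
def Ramanujan {n : ℕ} (H : SimpleGraph (Fin n)) (d : ℕ) : Prop :=
  ∀ μ ∈ (H.adjMatrix ℝ).charpoly.roots.erase (d : ℝ), |μ| ≤ 2 * √((d : ℝ) - 1)

/-- Connectivity code: spanning subgraphs with pairwise connected symmetric differences. -/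
def IsCode {n : ℕ} (H : SimpleGraph (Fin n)) (C : Finset (SimpleGraph (Fin n))) : Prop :=
  (∀ F ∈ C, F ≤ H) ∧ ∀ F₁ ∈ C, ∀ F₂ ∈ C, F₁ ≠ F₂ → (symmDiff F₁ F₂).Connected

def f (a b : Fin 10) : Bool :=
  a != b && (if a.val / 5 == b.val / 5 then (a.val % 5 < 3 || b.val % 5 < 3)
    else (a.val % 5 == b.val % 5 && 3 ≤ a.val % 5))

def H0 : SimpleGraph (Fin 10) := H18Gr.mk f (by decide +kernel) (by decide +kernel)

lemma ram : Ramanujan H0 4 := by
  intro μ hμ
  have h1 := H18Gr.trace_pow_succ (H18Gr.herm H0) 5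
  have h4 : ((4 : ℕ) : ℝ) ∈ (H0.adjMatrix ℝ).charpoly.roots := by
    refine H18Gr.mem_roots_of_eigvec (x := fun _ => 1) (fun h => one_ne_zero (congrFun h 0)) ?_
    unfold H0
    rw [H18Gr.adjMatrix_mk]
    have h : ∀ i, ∑ j, H18Gr.zm f i j = 4 := by decide +kernel
    ext i
    simp only [mulVec, dotProduct, map_apply, mul_one, Pi.smul_apply, smul_eq_mul]
    exact_mod_cast h i
  have h2 : trace (H0.adjMatrix ℝ ^ (5 + 1)) = 5752 := by
    unfold H0
    rw [H18Gr.adjMatrix_mk, H18Gr.trace_pow_cast]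
    have : H18Gr.zm f ^ (5 + 1) = (H18Gr.zm f * H18Gr.zm f * H18Gr.zm f) *
      (H18Gr.zm f * H18Gr.zm f * H18Gr.zm f) := by simp only [pow_succ, pow_zero, one_mul, mul_assoc]
    have e : H18Gr.zm f * H18Gr.zm f * H18Gr.zm f = Matrix.of fun i j =>
      ∑ k, ∑ l, if f i k && f k l && f l j then 1 else 0 := by decide +kernel
    rw [this, e]
    norm_cast
  rw [h2, ← Multiset.cons_erase h4, ← Multiset.cons_erase hμ] at h1
  simp only [Multiset.map_cons, Multiset.sum_cons] at h1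
  have h3 : 0 ≤ (Multiset.map (fun t : ℝ => t ^ (5 + 1))
      (((H0.adjMatrix ℝ).charpoly.roots.erase ((4 : ℕ) : ℝ)).erase μ)).sum :=
    Multiset.sum_nonneg fun x hx => by
      obtain ⟨t, -, rfl⟩ := Multiset.mem_map.1 hx
      exact Even.pow_nonneg (by decide) _
  have h5 : (μ ^ 2) ^ 3 ≤ 12 ^ 3 := by
    generalize (Multiset.sum _ : ℝ) = z at h1 h3
    push_cast at h1
    rw [show (μ ^ 2) ^ 3 = μ ^ 6 by ring]
    norm_num at h1 ⊢
    linarith
  have h6 : μ ^ 2 ≤ 12 := le_of_pow_le_pow_left₀ (by norm_num) (by norm_num) h5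
  refine abs_le_of_sq_le_sq' ?_ (by positivity) |> abs_le.2
  rw [mul_pow, Real.sq_sqrt (by norm_num)]
  norm_num
  exact h6

theorem result : ∃ (n d : ℕ) (H : SimpleGraph (Fin n)), 4 ≤ d ∧ H.Connected ∧
    (∀ v, (H.neighborSet v).ncard = d) ∧ Ramanujan H d ∧ ∀ C, IsCode H C → C.card < 2 ^ d := by
  refine ⟨10, 4, H0, le_rfl, ?_, fun v => ?_, ram, fun C hC => ?_⟩
  · refine H18Gr.conn_of_parent H0 0 ![0, 0, 0, 0, 0, 8, 8, 8, 3, 4] ![0, 1, 1, 1, 1, 3, 3, 3, 2, 2] ?_
    simp only [H0, H18Gr.mk_adj]; decide +kernel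
  · unfold H0
    rw [H18Gr.ncard_nbr]
    revert v; decide +kernel
  · have := Finset.card_le_card_of_injOn (s := C) (t := (Finset.univ : Finset (Bool × Bool)))
      (fun F => (decide (F.Adj 3 8), decide (F.Adj 4 9))) (fun _ _ => Finset.mem_univ _)
      (fun F₁ h1 F₂ h2 h => by
        by_contra hne
        simp only [Prod.mk.injEq, decide_eq_decide] at h
        have cut : ∀ x y : Fin 10, f x y = true → decide (x.val < 5) = decide (y.val < 5) ∨
          (x = 3 ∧ y = 8) ∨ (x = 8 ∧ y = 3) ∨ (x = 4 ∧ y = 9) ∨ (x = 9 ∧ y = 4) := by decide +kernel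
        have := H18Gr.not_conn (symmDiff F₁ F₂) (fun x => decide (x.val < 5)) (fun x y hxy => by
          have hH : H0.Adj x y := by
            rcases hxy with h' | h'
            · exact hC.1 _ h1 h'.1
            · exact hC.1 _ h2 h'.1
          have c1 := F₁.adj_comm
          have c2 := F₂.adj_comm
          rcases cut x y hH with e | ⟨rfl, rfl⟩ | ⟨rfl, rfl⟩ | ⟨rfl, rfl⟩ | ⟨rfl, rfl⟩
          · exact e
          all_goals
            exfalso
            rcases hxy with h' | h' <;> have a1 := h'.1 <;> have a2 := h'.2 <;> grind) 0 5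
          (hC.2 _ h1 _ h2 hne 0 5)
        simp at this)
    simp at this
    omega

end Pool.Agent.Results.MP_7d4bc7_co.Code
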